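import Mathlib

/-! Sets closed under operations with `κ` many finite sets as arguments, of size at most
`2 ^ κ`. -/

open Cardinal Set

universe u

namespace Q43.SL

variable {I M : Type u}

/-- The stages of the closing-off process. -/
def stage (G : (I → Finset M) → M) (o : Ordinal.{u}) : Set M :=
  G '' {𝒢 | ∀ i, (↑(𝒢 i) : Set M) ⊆ ⋃ p < o, stage G p}
termination_by o

theorem stage_def (G : (I → Finset M) → M) (o : Ordinal.{u}) :
    stage G o = G '' {𝒢 | ∀ i, (↑(𝒢 i) : Set M) ⊆ ⋃ p < o, stage G p} := by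
  rw [stage]

theorem mk_finset_sub_le {κ : Cardinal.{u}} (hκ : ℵ₀ ≤ κ) (C : Set M) (hC : #C ≤ κ) :
    #{s : Finset M // (↑s : Set M) ⊆ C} ≤ κ := by
  classical
  have h1 : #{s : Finset M // (↑s : Set M) ⊆ C} ≤ #(Finset C) := by
    refine Cardinal.mk_le_of_injective (f := fun s => s.1.subtype (· ∈ C)) ?_
    intro s t h
    apply Subtype.ext
    ext x
    have h2 := Finset.ext_iff.1 h
    constructor
    · intro hx
      have := (h2 ⟨x, s.2 hx⟩).1 (by simpa using hx)
      simpa using this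
    · intro hx
      have := (h2 ⟨x, t.2 hx⟩).2 (by simpa using hx)
      simpa using this
  refine h1.trans ?_
  rcases finite_or_infinite C with hf | hi
  · exact (Cardinal.lt_aleph0_of_finite _).le.trans hκ
  · rw [Cardinal.mk_finset_of_infinite]
    exact hC

theorem mk_stage_le (hI : ℵ₀ ≤ #I) (G : (I → Finset M) → M) (o : Ordinal.{u})
    (ho : o ≤ (Order.succ #I).ord) : #(stage G o) ≤ 2 ^ #I := by
  induction o using WellFoundedLT.induction with
  | ind o IH =>
    have hκ : ℵ₀ ≤ (2 : Cardinal.{u}) ^ #I := hI.trans (cantor _).le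
    have hC : #(⋃ p < o, stage G p : Set M) ≤ 2 ^ #I := by
      apply Cardinal.mk_biUnion_le_of_le _ hκ
      · intro p hp
        exact IH p hp (hp.le.trans ho)
      · refine (Ordinal.card_le_card ho).trans ?_
        rw [Cardinal.card_ord]
        exact Order.succ_le_of_lt (cantor _)
    rw [stage_def]
    refine mk_image_le.trans ?_
    have h1 : #{𝒢 : I → Finset M | ∀ i, (↑(𝒢 i) : Set M) ⊆ ⋃ p < o, stage G p} ≤
        #(I → {s : Finset M // (↑s : Set M) ⊆ ⋃ p < o, stage G p}) := by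
      refine Cardinal.mk_le_of_injective (f := fun 𝒢 i => ⟨𝒢.1 i, 𝒢.2 i⟩) ?_
      intro 𝒢 ℋ h
      apply Subtype.ext
      funext i
      exact congrArg Subtype.val (congrFun h i)
    refine h1.trans ?_
    rw [← Cardinal.power_def]
    calc #{s : Finset M // (↑s : Set M) ⊆ ⋃ p < o, stage G p} ^ #I
        ≤ (2 ^ #I) ^ #I := Cardinal.power_le_power_right (mk_finset_sub_le hκ _ hC)
      _ = 2 ^ #I := by rw [← Cardinal.power_mul, Cardinal.mul_eq_self hI]

/-- For every operation with `κ` many finite sets as arguments there is a closed set of size at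
most `2 ^ κ`. -/
theorem exists_closed (hI : ℵ₀ ≤ #I) (G : (I → Finset M) → M) :
    ∃ B : Set M, #B ≤ 2 ^ #I ∧ ∀ 𝒢 : I → Finset M, (∀ i, (↑(𝒢 i) : Set M) ⊆ B) → G 𝒢 ∈ B := by
  refine ⟨⋃ p < (Order.succ #I).ord, stage G p, ?_, ?_⟩
  · have hκ : ℵ₀ ≤ (2 : Cardinal.{u}) ^ #I := hI.trans (cantor _).le
    apply Cardinal.mk_biUnion_le_of_le _ hκ
    · intro p hp
      exact mk_stage_le hI G p hp.le
    · rw [Cardinal.card_ord]
      exact Order.succ_le_of_lt (cantor _)
  · intro 𝒢 h𝒢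
    have hreg : (Order.succ #I).IsRegular := isRegular_succ hI
    have h1 : ∀ x : (Σ i, {m // m ∈ 𝒢 i}), ∃ p < (Order.succ #I).ord, x.2.1 ∈ stage G p := by
      rintro ⟨i, m, hm⟩
      have := h𝒢 i hm
      simpa using this
    choose r hr1 hr2 using h1
    have hcard : #(Σ i, {m // m ∈ 𝒢 i}) < (Order.succ #I).ord.cof := by
      rw [hreg.cof_ord, Order.lt_succ_iff, Cardinal.mk_sigma]
      refine (Cardinal.sum_le_mk_mul_iSup _).trans ?_
      calc #I * ⨆ i, #{m // m ∈ 𝒢 i} ≤ #I * #I := by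
            refine mul_le_mul' le_rfl (ciSup_le' fun i => ?_)
            exact (Cardinal.lt_aleph0_of_finite _).le.trans hI
        _ = #I := Cardinal.mul_eq_self hI
    have hsup : (⨆ x, r x) < (Order.succ #I).ord := Ordinal.iSup_lt_of_lt_cof hcard hr1
    have hlim : (⨆ x, r x) + 1 < (Order.succ #I).ord := by
      have := (Cardinal.isSuccLimit_ord hreg.aleph0_le)
      exact this.add_one_lt hsup
    refine mem_iUnion₂.2 ⟨(⨆ x, r x) + 1, hlim, ?_⟩
    rw [stage_def]
    refine ⟨𝒢, fun i m hm => ?_, rfl⟩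
    refine mem_iUnion₂.2 ⟨r ⟨i, m, hm⟩, ?_, hr2 ⟨i, m, hm⟩⟩
    have : r ⟨i, m, hm⟩ ≤ ⨆ x, r x := Ordinal.le_iSup r _
    exact lt_of_le_of_lt this (lt_add_of_pos_right _ one_pos)

end Q43.SL
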