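import Mathlib

/-! Ideals and filters of the lattice of subspaces of a vector space. -/

namespace Q43.SL

/-- `I` is an ideal of the lattice of the subspaces of `V`: it contains `0`, does not contain
`V`, and is closed under passing to subspaces and under sums. -/
structure IsIdeal {F V : Type*} [Field F] [AddCommGroup V] [Module F V]
    (I : Set (Submodule F V)) : Prop where
  bot_mem : ⊥ ∈ I
  top_notMem : ⊤ ∉ I
  mem_of_le : ∀ U W : Submodule F V, U ∈ I → W ≤ U → W ∈ I
  sup_mem : ∀ U W : Submodule F V, U ∈ I → W ∈ I → U ⊔ W ∈ I

/-- `M` is a filter on the lattice of the subspaces of `V`: it contains `V`, does not contain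
`0`, and is closed under passing to larger subspaces and under intersections. -/
structure IsFilter {F V : Type*} [Field F] [AddCommGroup V] [Module F V]
    (M : Set (Submodule F V)) : Prop where
  top_mem : ⊤ ∈ M
  bot_notMem : ⊥ ∉ M
  mem_of_le : ∀ U W : Submodule F V, U ∈ M → U ≤ W → W ∈ M
  inf_mem : ∀ U W : Submodule F V, U ∈ M → W ∈ M → U ⊓ W ∈ M

end Q43.SL
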