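import Mathlib

/-! A finiteness lemma for subspaces of a finite-dimensional space (the skew version of the
theorem of Bollobas on set pairs, for subspaces, in the form of a Noetherian property): for every
family of subspaces of a finite-dimensional space there is a finite subfamily such that a
subspace which meets all members of the subfamily meets all members of the family. -/

open Module

namespace Q43.SL

variable {F D : Type*} [Field F] [AddCommGroup D] [Module F D]

/-- The multilinear form `det ∘ g`. -/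
noncomputable def detForm (b : ℕ) (g : D →ₗ[F] (Fin b → F)) :
    MultilinearMap F (fun _ : Fin b => D) F :=
  ((Matrix.detRowAlternating : (Fin b → F) [⋀^Fin b]→ₗ[F] F).toMultilinearMap).compLinearMap
    (fun _ => g)

theorem detForm_apply (b : ℕ) (g : D →ₗ[F] (Fin b → F)) (w : Fin b → D) :
    detForm b g w = Matrix.det (Matrix.of fun i => g (w i)) := by
  rfl

/-- The forms of degree `b` which come from a linear map that kills `A`. -/
noncomputable def forms (b : ℕ) (A : Submodule F D) :
    Submodule F (MultilinearMap F (fun _ : Fin b => D) F) :=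
  Submodule.span F {ω | ∃ g : D →ₗ[F] (Fin b → F), A ≤ LinearMap.ker g ∧ ω = detForm b g}

theorem forms_vanish {b : ℕ} {A W : Submodule F D} (w : Basis (Fin b) F W) (h : A ⊓ W ≠ ⊥)
    {ω : MultilinearMap F (fun _ : Fin b => D) F} (hω : ω ∈ forms b A) :
    ω (fun i => (w i : D)) = 0 := by
  obtain ⟨u, ⟨huA, huW⟩, hu0⟩ := (Submodule.ne_bot_iff _).1 h
  unfold forms at hω
  induction hω using Submodule.span_induction with
  | mem ω hω =>
    obtain ⟨g, hg, rfl⟩ := hω
    have hgu : g u = 0 := hg huA
    have hsum : (u : D) = ∑ i, (w.repr ⟨u, huW⟩ i) • (w i : D) := by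
      have h := congrArg Subtype.val (w.sum_repr ⟨u, huW⟩)
      rw [AddSubmonoidClass.coe_finsetSum] at h
      exact h.symm
    have hdep : ¬ LinearIndependent F (fun i => g (w i : D)) := by
      intro hli
      rw [Fintype.linearIndependent_iff] at hli
      have h0 : ∑ i, (w.repr ⟨u, huW⟩ i) • g (w i : D) = 0 := by
        rw [← hgu]
        conv_rhs => rw [hsum]
        simp
      have hz := hli _ h0
      have : (⟨u, huW⟩ : W) = 0 := by
        rw [← w.sum_repr ⟨u, huW⟩]
        simp [hz]
      exact hu0 (congrArg Subtype.val this)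
    exact AlternatingMap.map_linearDependent
      (Matrix.detRowAlternating : (Fin b → F) [⋀^Fin b]→ₗ[F] F) _ hdep
  | zero => rfl
  | add x y _ _ hx hy => simp [hx, hy]
  | smul a x _ hx => simp [hx]

theorem forms_nonvanish {b : ℕ} {A W : Submodule F D} (w : Basis (Fin b) F W) (h : A ⊓ W = ⊥) :
    ∃ ω ∈ forms b A, ω (fun i => (w i : D)) ≠ 0 := by
  have hinj : Function.Injective ((A.mkQ ∘ₗ W.subtype) ∘ₗ (w.equivFun.symm : (Fin b → F) →ₗ[F] W)) := by
    rw [← LinearMap.ker_eq_bot, LinearMap.ker_eq_bot']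
    intro x hx
    have h1 : ((w.equivFun.symm x : W) : D) ∈ A :=
      (Submodule.Quotient.mk_eq_zero A).1 hx
    have h2 : ((w.equivFun.symm x : W) : D) ∈ A ⊓ W := ⟨h1, (w.equivFun.symm x).2⟩
    rw [h, Submodule.mem_bot] at h2
    have h3 : (w.equivFun.symm x : W) = 0 := Subtype.ext h2
    exact (LinearEquiv.map_eq_zero_iff _).1 h3
  obtain ⟨g', hg'⟩ := LinearMap.exists_leftInverse_of_injective _ (LinearMap.ker_eq_bot.2 hinj)
  refine ⟨detForm b (g' ∘ₗ A.mkQ), Submodule.subset_span ⟨_, ?_, rfl⟩, ?_⟩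
  · intro a ha
    rw [LinearMap.mem_ker, LinearMap.comp_apply, Submodule.mkQ_apply,
      (Submodule.Quotient.mk_eq_zero A).2 ha, map_zero]
  · have key : ∀ i, (g' ∘ₗ A.mkQ) (w i : D) = Pi.single i 1 := by
      intro i
      have := LinearMap.congr_fun hg' (Pi.single i 1)
      simpa using this
    rw [detForm_apply]
    have : (Matrix.of fun i => (g' ∘ₗ A.mkQ) (w i : D)) = (1 : Matrix (Fin b) (Fin b) F) := by
      ext i j
      rw [Matrix.of_apply, key, Matrix.one_apply, Pi.single_apply]
      simp [eq_comm]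
    rw [this, Matrix.det_one]
    exact one_ne_zero

/-- The finiteness lemma. -/
theorem exists_finset_meets [Module.Finite F D] {T : Type*} (f : T → Submodule F D)
    (𝒜 : Set T) :
    ∃ 𝒜₀ : Finset T, ↑𝒜₀ ⊆ 𝒜 ∧ ∀ W : Submodule F D, (∀ t ∈ 𝒜₀, f t ⊓ W ≠ ⊥) →
      ∀ t ∈ 𝒜, f t ⊓ W ≠ ⊥ := by
  classical
  have key : ∀ b : ℕ, ∃ 𝒜₀ : Finset T, ↑𝒜₀ ⊆ 𝒜 ∧
      ∀ t ∈ 𝒜, forms b (f t) ≤ 𝒜₀.sup (fun t => forms b (f t)) := by
    intro b
    obtain ⟨s, hs, hsup⟩ := CompleteLattice.WellFoundedGT.isSupFiniteCompact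
      (Submodule F (MultilinearMap F (fun _ : Fin b => D) F)) ((fun t => forms b (f t)) '' 𝒜)
    obtain ⟨s', hs', hss'⟩ := Finset.subset_set_image_iff.1 hs
    refine ⟨s', hs', fun t ht => ?_⟩
    have h1 : forms b (f t) ≤ sSup ((fun t => forms b (f t)) '' 𝒜) :=
      le_sSup ⟨t, ht, rfl⟩
    rw [hsup, ← hss', Finset.sup_image] at h1
    exact h1
  choose 𝒜f h1 h2 using key
  refine ⟨(Finset.range (Module.finrank F D + 1)).biUnion 𝒜f, ?_, ?_⟩
  · intro t ht
    simp only [Finset.coe_biUnion, Set.mem_iUnion] at ht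
    obtain ⟨b, _, hb⟩ := ht
    exact h1 b hb
  · intro W hW t ht h0
    set b := Module.finrank F W with hb
    have hbD : b ≤ Module.finrank F D := Submodule.finrank_le W
    have w : Basis (Fin b) F W := Module.finBasis F W
    obtain ⟨ω, hω, hne⟩ := forms_nonvanish w h0
    apply hne
    have hle : (𝒜f b).sup (fun t => forms b (f t)) ≤
        LinearMap.ker ({ toFun := fun ω : MultilinearMap F (fun _ : Fin b => D) F =>
                          ω (fun i => (w i : D)),
                         map_add' := fun _ _ => rfl, map_smul' := fun _ _ => rfl } :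
          MultilinearMap F (fun _ : Fin b => D) F →ₗ[F] F) := by
      refine Finset.sup_le fun t' ht' η hη => ?_
      refine forms_vanish w (hW t' ?_) hη
      exact Finset.mem_biUnion.2 ⟨b, Finset.mem_range.2 (by omega), ht'⟩
    exact hle (h2 b t ht hω)

end Q43.SL
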