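import Pool.Agent.Q43.SL.Zorn

/-! The lower bound for the number of maximal filters. -/

open Module Cardinal

universe u

namespace Q43.SL

variable {F V : Type u} [Field F] [AddCommGroup V] [Module F V] {ι : Type u}

open Classical in
/-- The trace of a set on a finite set. -/
noncomputable def tr (X : Set ι) (S : Finset ι) : Finset ι := S.filter (· ∈ X)

theorem exists_separating [Nonempty ι] (A : Finset (Set ι)) :
    ∃ S : Finset ι, ∀ X ∈ A, ∀ Y ∈ A, tr X S = tr Y S → X = Y := by
  classical
  have h : ∀ X Y : Set ι, ∃ i : ι, X ≠ Y → ¬ (i ∈ X ↔ i ∈ Y) := by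
    intro X Y
    by_cases hXY : X = Y
    · exact ⟨Classical.arbitrary ι, fun h => absurd hXY h⟩
    · have : ¬ ∀ i, i ∈ X ↔ i ∈ Y := fun h => hXY (Set.ext h)
      push Not at this
      obtain ⟨i, hi⟩ := this
      refine ⟨i, fun _ h => ?_⟩
      rcases hi with ⟨h1, h2⟩ | ⟨h1, h2⟩
      · exact h2 (h.1 h1)
      · exact h1 (h.2 h2)
  choose d hd using h
  refine ⟨(A ×ˢ A).image (fun p => d p.1 p.2), fun X hX Y hY hXY => ?_⟩
  by_contra hne
  apply hd X Y hne
  have hmem : d X Y ∈ (A ×ˢ A).image (fun p => d p.1 p.2) :=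
    Finset.mem_image.2 ⟨(X, Y), Finset.mem_product.2 ⟨hX, hY⟩, rfl⟩
  have := Finset.ext_iff.1 hXY (d X Y)
  unfold tr at this
  rw [Finset.mem_filter, Finset.mem_filter] at this
  constructor
  · intro h; exact (this.1 ⟨hmem, h⟩).2
  · intro h; exact (this.2 ⟨hmem, h⟩).2

open Classical in
/-- The members of the independent family. -/
noncomputable def UF (b : Basis (Finset ι × Finset (Finset ι)) F V) (X : Set ι) (a : F) :
    Submodule F V where
  carrier := {v | ∀ S c, tr X S ∉ c → b.repr v (S, insert (tr X S) c) = a * b.repr v (S, c)}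
  zero_mem' := by intro S c _; simp
  add_mem' := by
    intro v w hv hw S c h
    rw [map_add, Finsupp.add_apply, Finsupp.add_apply, hv S c h, hw S c h, mul_add]
  smul_mem' := by
    intro r v hv S c h
    rw [map_smul, Finsupp.smul_apply, Finsupp.smul_apply, hv S c h, smul_eq_mul, smul_eq_mul,
      mul_left_comm]

theorem UF_disjoint (b : Basis (Finset ι × Finset (Finset ι)) F V) (X : Set ι) {a a' : F}
    (h : a ≠ a') : UF b X a ⊓ UF b X a' = ⊥ := by
  classical
  rw [Submodule.eq_bot_iff]
  rintro v ⟨hv, hv'⟩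
  have h1 : ∀ S c, tr X S ∉ c → b.repr v (S, c) = 0 := by
    intro S c hc
    have e1 := hv S c hc
    have e2 := hv' S c hc
    rw [e1] at e2
    have : (a - a') * b.repr v (S, c) = 0 := by rw [sub_mul, e2, sub_self]
    exact (mul_eq_zero.1 this).resolve_left (sub_ne_zero.2 h)
  have h2 : b.repr v = 0 := by
    ext ⟨S, c⟩
    by_cases hc : tr X S ∈ c
    · have e1 := hv S (c.erase (tr X S)) (Finset.notMem_erase _ _)
      rw [h1 S _ (Finset.notMem_erase _ _), mul_zero, Finset.insert_erase hc] at e1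
      exact e1
    · exact h1 S c hc
  exact (LinearEquiv.map_eq_zero_iff b.repr).1 h2

theorem UF_inf_ne_bot [Nonempty ι] (b : Basis (Finset ι × Finset (Finset ι)) F V) (g : Set ι → F)
    (A : Finset (Set ι)) : A.inf (fun X => UF b X (g X)) ≠ ⊥ := by
  classical
  obtain ⟨S₀, hS₀⟩ := exists_separating A
  set T : Finset (Finset ι) := A.image (fun X => tr X S₀) with hT
  let φ : Finset ι × Finset (Finset ι) → F := fun p =>
    if p.1 = S₀ ∧ p.2 ⊆ T then ∏ X ∈ A, (if tr X S₀ ∈ p.2 then g X else 1) else 0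
  let f : (Finset ι × Finset (Finset ι)) →₀ F := Finsupp.onFinset (({S₀} : Finset (Finset ι)) ×ˢ T.powerset) φ (by
    rintro ⟨S, c⟩ h
    by_cases hc : S = S₀ ∧ c ⊆ T
    · simp [hc.1, hc.2]
    · exact absurd (if_neg hc) h)
  rw [Submodule.ne_bot_iff]
  refine ⟨b.repr.symm f, ?_, ?_⟩
  · rw [Submodule.mem_finsetInf]
    intro X hX S c hc
    rw [LinearEquiv.apply_symm_apply]
    change φ (S, insert (tr X S) c) = g X * φ (S, c)
    by_cases hS : S = S₀
    · subst hS
      have htT : tr X S ∈ T := Finset.mem_image.2 ⟨X, hX, rfl⟩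
      by_cases hcT : c ⊆ T
      · have h1 : φ (S, insert (tr X S) c) =
            ∏ Y ∈ A, (if tr Y S ∈ insert (tr X S) c then g Y else 1) :=
          if_pos ⟨rfl, Finset.insert_subset htT hcT⟩
        have h2 : φ (S, c) = ∏ Y ∈ A, (if tr Y S ∈ c then g Y else 1) := if_pos ⟨rfl, hcT⟩
        rw [h1, h2, ← Finset.mul_prod_erase A _ hX, ← Finset.mul_prod_erase A _ hX,
          if_pos (Finset.mem_insert_self _ _), if_neg hc, one_mul]
        congr 1
        refine Finset.prod_congr rfl fun Y hY => ?_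
        have hne : tr Y S ≠ tr X S := fun h =>
          (Finset.ne_of_mem_erase hY) (hS₀ Y (Finset.mem_of_mem_erase hY) X hX h)
        simp [Finset.mem_insert, hne]
      · have h1 : φ (S, insert (tr X S) c) = 0 :=
          if_neg (fun h => hcT ((Finset.subset_insert _ _).trans h.2))
        have h2 : φ (S, c) = 0 := if_neg (fun h => hcT h.2)
        rw [h1, h2, mul_zero]
    · have h1 : φ (S, insert (tr X S) c) = 0 := if_neg (fun h => hS h.1)
      have h2 : φ (S, c) = 0 := if_neg (fun h => hS h.1)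
      rw [h1, h2, mul_zero]
  · intro h
    have h1 : f = 0 := (LinearEquiv.map_eq_zero_iff b.repr.symm).1 h
    have h2 : φ (S₀, ∅) = 0 := by
      change f (S₀, ∅) = 0
      rw [h1]; rfl
    have h3 : φ (S₀, ∅) = 1 := by
      have : φ (S₀, ∅) = ∏ X ∈ A, (if tr X S₀ ∈ (∅ : Finset (Finset ι)) then g X else 1) :=
        if_pos ⟨rfl, Finset.empty_subset _⟩
      rw [this]
      simp
    rw [h3] at h2
    exact one_ne_zero h2

theorem power_le_mk_maximal_filter [Nonempty ι]
    (b : Basis (Finset ι × Finset (Finset ι)) F V) :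
    #F ^ (2 ^ #ι : Cardinal) ≤ #{M : Set (Submodule F V) // Maximal IsFilter M} := by
  classical
  have key : ∀ g : Set ι → F, ∃ M : Set (Submodule F V), Maximal IsFilter M ∧
      ∀ X, UF b X (g X) ∈ M := by
    intro g
    obtain ⟨M, hM, hsub⟩ := exists_maximal_filter (Set.range fun X => UF b X (g X)) (by
      intro A hA
      rw [← Set.image_univ] at hA
      obtain ⟨B, _, rfl⟩ := Finset.subset_set_image_iff.1 hA
      rw [Finset.inf_image]
      exact UF_inf_ne_bot b g B)
    exact ⟨M, hM, fun X => hsub ⟨X, rfl⟩⟩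
  choose M hM hMX using key
  have hinj : Function.Injective (fun g => (⟨M g, hM g⟩ :
      {M : Set (Submodule F V) // Maximal IsFilter M})) := by
    intro g g' h
    have h' : M g = M g' := congrArg Subtype.val h
    by_contra hne
    obtain ⟨X, hX⟩ := Function.ne_iff.1 hne
    have h1 := hMX g X
    have h2 := hMX g' X
    rw [h'] at h1
    exact meets_of_mem (hM g').1 h1 h2 (UF_disjoint b X hX)
  have h := Cardinal.mk_le_of_injective hinj
  rwa [← Cardinal.power_def, Cardinal.mk_set] at h

end Q43.SL
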