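import Pool.Agent.Q43.SL.Zorn

/-! The lower bound for the number of maximal ideals. -/

open Module Cardinal

universe u

namespace Q43.SL

variable {F V : Type u} [Field F] [AddCommGroup V] [Module F V] {ι : Type u}

/-- Vectors with the interpolation property, indexed by the functions on a finite set. -/
theorem exists_vectors (F : Type u) [Field F] (S : Finset ι) :
    ∃ ℓ : (S → F) → (ℕ →₀ F), ∀ A : Finset (S → F), A.card ≤ S.card → ∀ c : (S → F) → F,
      ∃ q : ℕ → F, ∀ t ∈ A, (ℓ t).sum (fun k x => x * q k) = c t := by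
  classical
  rcases finite_or_infinite F with hF | hF
  · obtain ⟨N, ⟨e⟩⟩ := Finite.exists_equiv_fin (S → F)
    refine ⟨fun t => Finsupp.single (e t : ℕ) 1, fun A _ c => ?_⟩
    refine ⟨fun k => if h : k < N then c (e.symm ⟨k, h⟩) else 0, fun t _ => ?_⟩
    rw [Finsupp.sum_single_index (by simp)]
    simp
  · have hle : #(S → F) ≤ #F := by
      rw [← Cardinal.power_def, Cardinal.mk_coe_finset]
      exact Cardinal.power_nat_le (Cardinal.aleph0_le_mk F)
    obtain ⟨μ⟩ := hle
    refine ⟨fun t => ∑ k ∈ Finset.range S.card, Finsupp.single k (μ t ^ k), fun A hA c => ?_⟩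
    rcases A.eq_empty_or_nonempty with rfl | hne
    · exact ⟨0, fun t ht => absurd ht (Finset.notMem_empty t)⟩
    set p : Polynomial F := Lagrange.interpolate A μ c with hp
    have hinj : Set.InjOn μ (A : Set (S → F)) := μ.injective.injOn
    have hdeg : p.degree < A.card := Lagrange.degree_interpolate_lt c hinj
    have hnat : p.natDegree < S.card := by
      refine lt_of_lt_of_le ?_ hA
      rcases eq_or_ne p 0 with h0 | h0
      · rw [h0, Polynomial.natDegree_zero]
        exact hne.card_pos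
      · exact (Polynomial.natDegree_lt_iff_degree_lt h0).2 hdeg
    refine ⟨fun k => p.coeff k, fun t ht => ?_⟩
    have h1 : p.eval (μ t) = c t := Lagrange.eval_interpolate_at_node c hinj ht
    rw [← h1, Polynomial.eval_eq_sum_range' hnat]
    rw [← Finsupp.sum_finsetSum_index (by simp) (by intro k x y; ring)]
    refine Finset.sum_congr rfl fun k _ => ?_
    rw [Finsupp.sum_single_index (by simp), mul_comm]

/-- The chosen vectors. -/
noncomputable def ell (F : Type u) [Field F] (S : Finset ι) : (S → F) → (ℕ →₀ F) :=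
  (exists_vectors F S).choose

theorem ell_spec (F : Type u) [Field F] (S : Finset ι) : ∀ A : Finset (S → F),
    A.card ≤ S.card → ∀ c : (S → F) → F,
      ∃ q : ℕ → F, ∀ t ∈ A, (ell F S t).sum (fun k x => x * q k) = c t :=
  (exists_vectors F S).choose_spec

/-- The vector in the children of a node. -/
noncomputable def lv (b : Basis (Finset ι × List ℕ) F V) (h : ι → F) (j : Finset ι × List ℕ) :
    V :=
  (ell F j.1 (fun i => h i)).sum (fun k x => x • b (j.1, k :: j.2))

/-- The first members of the pairs. -/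
noncomputable def UI (b : Basis (Finset ι × List ℕ) F V) (h : ι → F) : Submodule F V :=
  Submodule.span F (Set.range (lv b h))

/-- The second members of the pairs. -/
noncomputable def WI (b : Basis (Finset ι × List ℕ) F V) (h : ι → F) : Submodule F V :=
  Submodule.span F (Set.range fun j => lv b h j - b j)

theorem UI_sup_WI (b : Basis (Finset ι × List ℕ) F V) (h : ι → F) : UI b h ⊔ WI b h = ⊤ := by
  rw [eq_top_iff, ← b.span_eq, Submodule.span_le]
  rintro _ ⟨j, rfl⟩
  have h1 : b j = lv b h j - (lv b h j - b j) := by abel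
  rw [h1]
  exact Submodule.sub_mem _ (Submodule.mem_sup_left (Submodule.subset_span ⟨j, rfl⟩))
    (Submodule.mem_sup_right (Submodule.subset_span ⟨j, rfl⟩))

open Classical in
theorem sup_ne_top [Infinite ι] (b : Basis (Finset ι × List ℕ) F V) (𝒳 : Set (ι → F))
    (A : Finset (ι → F)) : A.sup (fun h => if h ∈ 𝒳 then UI b h else WI b h) ≠ ⊤ := by
  classical
  -- a finite set of indices which separates the functions and is large enough
  have hd : ∀ h g : ι → F, ∃ i : ι, h ≠ g → h i ≠ g i := by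
    intro h g
    by_cases hg : h = g
    · exact ⟨Classical.arbitrary ι, fun hne => absurd hg hne⟩
    · obtain ⟨i, hi⟩ := Function.ne_iff.1 hg
      exact ⟨i, fun _ => hi⟩
  choose d hd using hd
  obtain ⟨S₂, hS₂⟩ := Infinite.exists_subset_card_eq ι A.card
  set S : Finset ι := (A ×ˢ A).image (fun p => d p.1 p.2) ∪ S₂ with hS
  have hcard : A.card ≤ S.card := hS₂ ▸ Finset.card_le_card Finset.subset_union_right
  let r : (ι → F) → (S → F) := fun h i => h i
  have hr : Set.InjOn r A := by
    intro h hh g hg hrg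
    by_contra hne
    have hmem : d h g ∈ S :=
      Finset.mem_union_left _ (Finset.mem_image.2 ⟨(h, g), Finset.mem_product.2 ⟨hh, hg⟩, rfl⟩)
    exact hd h g hne (congrFun hrg ⟨d h g, hmem⟩)
  obtain ⟨q, hq⟩ := ell_spec F S (A.image r) (Finset.card_image_le.trans hcard)
    (fun t => if ∃ h ∈ A, r h = t ∧ h ∈ 𝒳 then 0 else 1)
  let φ : V →ₗ[F] F := b.constr F (fun j => if j.1 = S then (j.2.map q).prod else 0)
  have hφb : ∀ j, φ (b j) = if j.1 = S then (j.2.map q).prod else 0 := by
    intro j
    exact b.constr_basis F _ j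
  have hφl : ∀ h ∈ A, ∀ j, φ (lv b h j) = (if h ∈ 𝒳 then 0 else 1) * φ (b j) := by
    rintro h hh ⟨S', w⟩
    have h1 : φ (lv b h (S', w)) =
        (ell F S' (fun i => h i)).sum (fun k x => x * φ (b (S', k :: w))) := by
      unfold lv
      rw [Finsupp.sum, map_sum]
      refine Finset.sum_congr rfl fun k _ => ?_
      rw [map_smul, smul_eq_mul]
    rw [h1]
    by_cases hS' : S' = S
    · subst hS'
      have h2 := hq (r h) (Finset.mem_image_of_mem r hh)
      have h3 : (∃ g ∈ A, r g = r h ∧ g ∈ 𝒳) ↔ h ∈ 𝒳 := by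
        constructor
        · rintro ⟨g, hg, hgr, hg𝒳⟩
          rwa [← hr hg hh hgr]
        · intro h𝒳
          exact ⟨h, hh, rfl, h𝒳⟩
      have h4 : (ell F S (fun i => h i)).sum (fun k x => x * φ (b (S, k :: w))) =
          (ell F S (r h)).sum (fun k x => x * q k) * φ (b (S, w)) := by
        rw [Finsupp.sum, Finsupp.sum, Finset.sum_mul]
        refine Finset.sum_congr rfl fun k _ => ?_
        rw [hφb, hφb, if_pos rfl, if_pos rfl, List.map_cons, List.prod_cons]
        ring
      rw [h4, h2]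
      simp only [h3]
    · have h5 : ∀ w', φ (b (S', w')) = 0 := fun w' => by rw [hφb, if_neg hS']
      rw [h5, mul_zero]
      rw [Finsupp.sum]
      refine Finset.sum_eq_zero fun k _ => ?_
      rw [h5, mul_zero]
  have hle : A.sup (fun h => if h ∈ 𝒳 then UI b h else WI b h) ≤ LinearMap.ker φ := by
    refine Finset.sup_le fun h hh => ?_
    by_cases h𝒳 : h ∈ 𝒳
    · rw [if_pos h𝒳]
      unfold UI
      rw [Submodule.span_le]
      rintro _ ⟨j, rfl⟩
      rw [SetLike.mem_coe, LinearMap.mem_ker, hφl h hh j, if_pos h𝒳, zero_mul]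
    · rw [if_neg h𝒳]
      unfold WI
      rw [Submodule.span_le]
      rintro _ ⟨j, rfl⟩
      rw [SetLike.mem_coe, LinearMap.mem_ker, map_sub, hφl h hh j, if_neg h𝒳, one_mul, sub_self]
  intro htop
  rw [htop, top_le_iff] at hle
  have h6 : b (S, []) ∈ LinearMap.ker φ := by rw [hle]; trivial
  rw [LinearMap.mem_ker, hφb, if_pos rfl] at h6
  simp at h6

theorem power_le_mk_maximal_ideal [Infinite ι] (b : Basis (Finset ι × List ℕ) F V) :
    (2 : Cardinal.{u}) ^ (#F ^ #ι) ≤ #{I : Set (Submodule F V) // Maximal IsIdeal I} := by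
  classical
  have key : ∀ 𝒳 : Set (ι → F), ∃ I : Set (Submodule F V), Maximal IsIdeal I ∧
      ∀ h, (if h ∈ 𝒳 then UI b h else WI b h) ∈ I := by
    intro 𝒳
    obtain ⟨M, hM, hsub⟩ := exists_maximal_ideal
      (Set.range fun h => if h ∈ 𝒳 then UI b h else WI b h) (by
      intro A hA
      rw [← Set.image_univ] at hA
      obtain ⟨B, _, rfl⟩ := Finset.subset_set_image_iff.1 hA
      rw [Finset.sup_image]
      exact sup_ne_top b 𝒳 B)
    exact ⟨M, hM, fun X => hsub ⟨X, rfl⟩⟩
  choose I hI hIX using key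
  have hone : ∀ 𝒳 𝒴 : Set (ι → F), I 𝒳 = I 𝒴 → 𝒳 ⊆ 𝒴 := by
    intro 𝒳 𝒴 h g hg
    by_contra hg'
    have h1 := hIX 𝒳 g
    have h2 := hIX 𝒴 g
    rw [if_pos hg, h] at h1
    rw [if_neg hg'] at h2
    have h3 := (hI 𝒴).1.sup_mem _ _ h1 h2
    rw [UI_sup_WI] at h3
    exact (hI 𝒴).1.top_notMem h3
  have hinj : Function.Injective (fun 𝒳 => (⟨I 𝒳, hI 𝒳⟩ :
      {I : Set (Submodule F V) // Maximal IsIdeal I})) := by
    intro 𝒳 𝒴 h
    have h' : I 𝒳 = I 𝒴 := congrArg Subtype.val h
    exact Set.Subset.antisymm (hone 𝒳 𝒴 h') (hone 𝒴 𝒳 h'.symm)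
  have h := Cardinal.mk_le_of_injective hinj
  rwa [Cardinal.mk_set, ← Cardinal.power_def] at h

end Q43.SL
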