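import Pool.Agent.Q43.SL.Zorn
import Pool.Agent.Q43.SL.Fin
import Pool.Agent.Q43.SL.Clos

/-! Upper bounds for the number of maximal filters and maximal ideals of the lattice of
subspaces. -/

open Module Cardinal

universe u

namespace Q43.SL

variable {F V : Type u} [Field F] [AddCommGroup V] [Module F V] {ι : Type u}

/-- The subspace spanned by a finite part of the basis. -/
noncomputable def fin (b : Basis ι F V) (S : Finset ι) : Submodule F V :=
  Submodule.span F (b '' ↑S)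

instance (b : Basis ι F V) (S : Finset ι) : Module.Finite F (fin b S) := by
  unfold fin
  exact Module.Finite.span_of_finite F (S.finite_toSet.image b)

theorem exists_mem_fin (b : Basis ι F V) (v : V) : ∃ S, v ∈ fin b S := by
  refine ⟨(b.repr v).support, ?_⟩
  unfold fin
  exact b.mem_span_image.2 (Set.Subset.refl _)

/-- `U` and `W` have a nonzero common vector in the span of the part `S` of the basis. -/
def MeetsIn (b : Basis ι F V) (S : Finset ι) (U W : Submodule F V) : Prop :=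
  ∃ v ∈ fin b S, v ∈ U ∧ v ∈ W ∧ v ≠ 0

theorem meetsIn_iff (b : Basis ι F V) (S : Finset ι) (U W : Submodule F V) :
    MeetsIn b S U W ↔ Submodule.comap (fin b S).subtype U ⊓ Submodule.comap (fin b S).subtype W ≠ ⊥ := by
  rw [Submodule.ne_bot_iff]
  constructor
  · rintro ⟨v, hv, hU, hW, h0⟩
    refine ⟨⟨v, hv⟩, ⟨hU, hW⟩, fun h => h0 (congrArg Subtype.val h)⟩
  · rintro ⟨⟨v, hv⟩, ⟨hU, hW⟩, h0⟩
    exact ⟨v, hv, hU, hW, fun h => h0 (Subtype.ext h)⟩

theorem exists_finset_meetsIn (b : Basis ι F V) (S : Finset ι) {T : Type*}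
    (f : T → Submodule F V) (𝒜 : Set T) :
    ∃ 𝒜₀ : Finset T, ↑𝒜₀ ⊆ 𝒜 ∧ ∀ W : Submodule F V, (∀ A ∈ 𝒜₀, MeetsIn b S (f A) W) →
      ∀ A ∈ 𝒜, MeetsIn b S (f A) W := by
  obtain ⟨𝒜₀, h1, h2⟩ := exists_finset_meets
    (fun t => Submodule.comap (fin b S).subtype (f t)) 𝒜
  refine ⟨𝒜₀, h1, fun W hW A hA => ?_⟩
  rw [meetsIn_iff]
  exact h2 _ (fun t ht => (meetsIn_iff b S _ _).1 (hW t ht)) A hA

/-- A maximal filter is determined by a subset of size at most `2 ^ κ`. -/
theorem exists_small (b : Basis ι F V) (hι : ℵ₀ ≤ #ι) {M : Set (Submodule F V)}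
    (hM : Maximal IsFilter M) :
    ∃ B : Set (Submodule F V), B ⊆ M ∧ #B ≤ 2 ^ #ι ∧
      ∀ W : Submodule F V, (∀ U ∈ B, U ⊓ W ≠ ⊥) → W ∈ M := by
  classical
  have hinf : Infinite ι := Cardinal.infinite_iff.2 hι
  have hcard : #(Finset ι) = #ι := Cardinal.mk_finset_of_infinite ι
  let P : (Finset ι → Finset M) → M → Prop := fun 𝒢 U =>
    ∀ S, ¬ ∀ W : Submodule F V, (∀ A ∈ 𝒢 S, MeetsIn b S A.1 W) → MeetsIn b S U.1 W
  let G : (Finset ι → Finset M) → M := fun 𝒢 =>
    if h : ∃ U : M, P 𝒢 U then h.choose else ⟨⊤, hM.1.top_mem⟩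
  have hG : ∀ 𝒢, (∃ U : M, P 𝒢 U) → P 𝒢 (G 𝒢) := by
    intro 𝒢 h
    have : G 𝒢 = h.choose := dif_pos h
    rw [this]
    exact h.choose_spec
  obtain ⟨B, hB, hclosed⟩ := exists_closed (by rw [hcard]; exact hι) G
  rw [hcard] at hB
  refine ⟨Subtype.val '' B, ?_, mk_image_le.trans hB, ?_⟩
  · rintro _ ⟨U, _, rfl⟩
    exact U.2
  · intro W hW
    by_contra hWM
    have h1 : ∃ U ∈ M, U ⊓ W = ⊥ := by
      by_contra hcon
      push Not at hcon
      exact hWM (mem_of_forall_meets hM W hcon)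
    obtain ⟨U₀, hU₀, hdis⟩ := h1
    have h2 : ∀ S, ∃ 𝒜₀ : Finset M, ↑𝒜₀ ⊆ {U : M | U ∈ B ∧ MeetsIn b S U.1 W} ∧
        ∀ W' : Submodule F V, (∀ A ∈ 𝒜₀, MeetsIn b S A.1 W') →
          ∀ A ∈ {U : M | U ∈ B ∧ MeetsIn b S U.1 W}, MeetsIn b S A.1 W' :=
      fun S => exists_finset_meetsIn b S (fun U : M => U.1) _
    choose 𝒢 h𝒢1 h𝒢2 using h2
    have hmem : G 𝒢 ∈ B := hclosed 𝒢 (fun S U hU => (h𝒢1 S hU).1)
    have hP : P 𝒢 (G 𝒢) := by
      apply hG
      refine ⟨⟨U₀, hU₀⟩, fun S hcon => ?_⟩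
      obtain ⟨v, _, hvU, hvW, hv0⟩ := hcon W (fun A hA => (h𝒢1 S hA).2)
      have : v ∈ U₀ ⊓ W := ⟨hvU, hvW⟩
      rw [hdis] at this
      exact hv0 ((Submodule.mem_bot F).1 this)
    obtain ⟨v, ⟨hvU, hvW⟩, hv0⟩ := (Submodule.ne_bot_iff _).1 (hW _ ⟨G 𝒢, hmem, rfl⟩)
    obtain ⟨S, hS⟩ := exists_mem_fin b v
    exact hP S (fun W' hW' => h𝒢2 S W' hW' _ ⟨hmem, v, hS, hvU, hvW, hv0⟩)

theorem mk_maximal_filter_le (b : Basis ι F V) (hι : ℵ₀ ≤ #ι) :
    #{M : Set (Submodule F V) // Maximal IsFilter M} ≤ #(Submodule F V) ^ (2 ^ #ι : Cardinal) := by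
  classical
  have key : ∀ M : {M : Set (Submodule F V) // Maximal IsFilter M},
      ∃ f : Set ι → Submodule F V, M.1 = {W | ∀ X, f X ⊓ W ≠ ⊥} := by
    rintro ⟨M, hM⟩
    obtain ⟨B, hBM, hB, hdet⟩ := exists_small b hι hM
    have hne : Nonempty (insert ⊤ B : Set (Submodule F V)) := ⟨⟨⊤, Set.mem_insert _ _⟩⟩
    have hle : #(insert ⊤ B : Set (Submodule F V)) ≤ #(Set ι) := by
      rw [Cardinal.mk_set]
      refine (Cardinal.mk_insert_le).trans ?_
      exact Cardinal.add_le_of_le (hι.trans (cantor _).le) hB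
        (one_lt_aleph0.le.trans (hι.trans (cantor _).le))
    obtain ⟨e⟩ := hle
    refine ⟨fun X => (Function.invFun e X).1, ?_⟩
    ext W
    constructor
    · intro hW X
      have hX : (Function.invFun e X).1 ∈ M := by
        rcases (Function.invFun e X).2 with h | h
        · rw [h]; exact hM.1.top_mem
        · exact hBM h
      exact meets_of_mem hM.1 hX hW
    · intro hW
      refine hdet W (fun U hU => ?_)
      have h5 : (Function.invFun e (e ⟨U, Set.mem_insert_of_mem _ hU⟩)).1 ⊓ W ≠ ⊥ :=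
        hW (e ⟨U, Set.mem_insert_of_mem _ hU⟩)
      rwa [Function.leftInverse_invFun e.injective] at h5
  choose f hf using key
  have hinj : Function.Injective f := by
    intro M N h
    apply Subtype.ext
    rw [hf M, hf N, h]
  calc #{M : Set (Submodule F V) // Maximal IsFilter M} ≤ #(Set ι → Submodule F V) :=
        Cardinal.mk_le_of_injective hinj
    _ = #(Submodule F V) ^ (2 ^ #ι : Cardinal) := by
        rw [← Cardinal.power_def, Cardinal.mk_set]

theorem mk_le_power (b : Basis ι F V) : #V ≤ #F ^ #ι := by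
  have h1 : #V ≤ #(ι → F) := by
    refine Cardinal.mk_le_of_injective (f := fun v => ⇑(b.repr v)) ?_
    intro v w h
    exact b.repr.injective (DFunLike.coe_injective h)
  rwa [← Cardinal.power_def] at h1

theorem mk_submodule_le (b : Basis ι F V) (hι : ℵ₀ ≤ #ι) : #(Submodule F V) ≤ #F ^ #ι := by
  classical
  have h1 : #(Submodule F V) ≤ #(ι → V) := by
    refine Cardinal.mk_le_of_surjective (f := fun f : ι → V => Submodule.span F (Set.range f)) ?_
    intro U
    obtain ⟨s, hs⟩ : ∃ s : Set U, Nonempty (Basis s F U) :=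
      ⟨_, ⟨Basis.ofVectorSpace F U⟩⟩
    obtain ⟨c⟩ := hs
    have hle : #s ≤ #ι := by
      have h2 : Module.rank F U ≤ Module.rank F V := Submodule.rank_le U
      rwa [← c.mk_eq_rank'', ← b.mk_eq_rank''] at h2
    obtain ⟨e⟩ := hle
    refine ⟨fun i => if h : ∃ x, e x = i then (c h.choose : V) else 0, ?_⟩
    apply le_antisymm
    · rw [Submodule.span_le]
      rintro _ ⟨i, rfl⟩
      by_cases h : ∃ x, e x = i
      · simp only [dif_pos h]
        exact (c h.choose).2
      · simp only [dif_neg h]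
        exact U.zero_mem
    · intro u hu
      have h3 : (⟨u, hu⟩ : U) ∈ Submodule.span F (Set.range c) := by
        rw [c.span_eq]; trivial
      have h4 : u ∈ Submodule.map U.subtype (Submodule.span F (Set.range c)) := ⟨_, h3, rfl⟩
      rw [Submodule.map_span] at h4
      refine Submodule.span_mono ?_ h4
      rintro _ ⟨_, ⟨x, rfl⟩, rfl⟩
      refine ⟨e x, ?_⟩
      have h : ∃ y, e y = e x := ⟨x, rfl⟩
      have hx : h.choose = x := e.injective h.choose_spec
      simp only [dif_pos h]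
      rw [hx]
      rfl
  refine h1.trans ?_
  rw [← Cardinal.power_def]
  calc #V ^ #ι ≤ (#F ^ #ι) ^ #ι := Cardinal.power_le_power_right (mk_le_power b)
    _ = #F ^ #ι := by rw [← Cardinal.power_mul, Cardinal.mul_eq_self hι]

end Q43.SL
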