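import Pool.Agent.Q43.SL.Defs

/-! Every family of subspaces with the finite intersection property (the finite sum property)
lies in a maximal filter (maximal ideal). -/

open Module

namespace Q43.SL

variable {F V : Type*} [Field F] [AddCommGroup V] [Module F V]

theorem exists_maximal_filter (S : Set (Submodule F V))
    (hS : ∀ A : Finset (Submodule F V), (↑A : Set (Submodule F V)) ⊆ S → A.inf id ≠ ⊥) :
    ∃ M : Set (Submodule F V), Maximal IsFilter M ∧ S ⊆ M := by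
  classical
  let M₀ : Set (Submodule F V) :=
    {U | ∃ A : Finset (Submodule F V), (↑A : Set (Submodule F V)) ⊆ S ∧ A.inf id ≤ U}
  have hM₀ : IsFilter M₀ := by
    refine ⟨⟨∅, by simp, by simp⟩, ?_, ?_, ?_⟩
    · rintro ⟨A, hA, hle⟩
      exact hS A hA (le_bot_iff.1 hle)
    · rintro U W ⟨A, hA, hle⟩ hUW
      exact ⟨A, hA, hle.trans hUW⟩
    · rintro U W ⟨A, hA, hle⟩ ⟨B, hB, hle'⟩
      refine ⟨A ∪ B, by simpa using ⟨hA, hB⟩, ?_⟩
      rw [Finset.inf_union]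
      exact inf_le_inf hle hle'
  obtain ⟨M, hM1, hM2⟩ := zorn_subset_nonempty {M : Set (Submodule F V) | IsFilter M} (by
    intro c hc hchain hne
    refine ⟨⋃₀ c, ?_, fun s hs => Set.subset_sUnion_of_mem hs⟩
    obtain ⟨s₀, hs₀⟩ := hne
    refine ⟨⟨s₀, hs₀, (hc hs₀).top_mem⟩, ?_, ?_, ?_⟩
    · rintro ⟨s, hs, hb⟩
      exact (hc hs).bot_notMem hb
    · rintro U W ⟨s, hs, hU⟩ hUW
      exact ⟨s, hs, (hc hs).mem_of_le U W hU hUW⟩
    · rintro U W ⟨s, hs, hU⟩ ⟨t, ht, hW⟩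
      rcases hchain.total hs ht with h | h
      · exact ⟨t, ht, (hc ht).inf_mem U W (h hU) hW⟩
      · exact ⟨s, hs, (hc hs).inf_mem U W hU (h hW)⟩) M₀ hM₀
  refine ⟨M, hM2, fun U hU => hM1 ⟨{U}, by simpa using hU, by simp⟩⟩

theorem exists_maximal_ideal (S : Set (Submodule F V))
    (hS : ∀ A : Finset (Submodule F V), (↑A : Set (Submodule F V)) ⊆ S → A.sup id ≠ ⊤) :
    ∃ I : Set (Submodule F V), Maximal IsIdeal I ∧ S ⊆ I := by
  classical
  let M₀ : Set (Submodule F V) :=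
    {U | ∃ A : Finset (Submodule F V), (↑A : Set (Submodule F V)) ⊆ S ∧ U ≤ A.sup id}
  have hM₀ : IsIdeal M₀ := by
    refine ⟨⟨∅, by simp, by simp⟩, ?_, ?_, ?_⟩
    · rintro ⟨A, hA, hle⟩
      exact hS A hA (top_le_iff.1 hle)
    · rintro U W ⟨A, hA, hle⟩ hUW
      exact ⟨A, hA, hUW.trans hle⟩
    · rintro U W ⟨A, hA, hle⟩ ⟨B, hB, hle'⟩
      refine ⟨A ∪ B, by simpa using ⟨hA, hB⟩, ?_⟩
      rw [Finset.sup_union]
      exact sup_le_sup hle hle'
  obtain ⟨M, hM1, hM2⟩ := zorn_subset_nonempty {M : Set (Submodule F V) | IsIdeal M} (by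
    intro c hc hchain hne
    refine ⟨⋃₀ c, ?_, fun s hs => Set.subset_sUnion_of_mem hs⟩
    obtain ⟨s₀, hs₀⟩ := hne
    refine ⟨⟨s₀, hs₀, (hc hs₀).bot_mem⟩, ?_, ?_, ?_⟩
    · rintro ⟨s, hs, hb⟩
      exact (hc hs).top_notMem hb
    · rintro U W ⟨s, hs, hU⟩ hUW
      exact ⟨s, hs, (hc hs).mem_of_le U W hU hUW⟩
    · rintro U W ⟨s, hs, hU⟩ ⟨t, ht, hW⟩
      rcases hchain.total hs ht with h | h
      · exact ⟨t, ht, (hc ht).sup_mem U W (h hU) hW⟩
      · exact ⟨s, hs, (hc hs).sup_mem U W hU (h hW)⟩) M₀ hM₀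
  refine ⟨M, hM2, fun U hU => hM1 ⟨{U}, by simpa using hU, by simp⟩⟩

/-- A subspace which meets every member of a maximal filter belongs to it. -/
theorem mem_of_forall_meets {M : Set (Submodule F V)} (hM : Maximal IsFilter M)
    (W : Submodule F V) (hW : ∀ U ∈ M, U ⊓ W ≠ ⊥) : W ∈ M := by
  let M' : Set (Submodule F V) := {X | ∃ U ∈ M, U ⊓ W ≤ X}
  have hM' : IsFilter M' := by
    refine ⟨⟨⊤, hM.1.top_mem, le_top⟩, ?_, ?_, ?_⟩
    · rintro ⟨U, hU, hle⟩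
      exact hW U hU (le_bot_iff.1 hle)
    · rintro X Y ⟨U, hU, hle⟩ hXY
      exact ⟨U, hU, hle.trans hXY⟩
    · rintro X Y ⟨U, hU, hle⟩ ⟨U', hU', hle'⟩
      refine ⟨U ⊓ U', hM.1.inf_mem U U' hU hU', ?_⟩
      refine le_inf ?_ ?_
      · exact (inf_le_inf_right W inf_le_left).trans hle
      · exact (inf_le_inf_right W inf_le_right).trans hle'
  have hsub : M ⊆ M' := fun U hU => ⟨U, hU, inf_le_left⟩
  exact hM.2 hM' hsub ⟨⊤, hM.1.top_mem, by simp⟩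

theorem meets_of_mem {M : Set (Submodule F V)} (hM : IsFilter M) {U W : Submodule F V}
    (hU : U ∈ M) (hW : W ∈ M) : U ⊓ W ≠ ⊥ := by
  intro h
  exact hM.bot_notMem (h ▸ hM.inf_mem U W hU hW)

end Q43.SL
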